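import Pool.Agent.Run7.h35.EX.Stm

set_option autoImplicit false
open scoped BigOperators ENNReal

namespace Run7.h884.EX
open Run7.h35.EX
noncomputable section

theorem l1_hasSum {S : Type} (f : l1 S) : HasSum (fun s => |(f : ∀ _ : S, ℝ) s|) ‖f‖ := by
  have h0 : (0:ℝ) < (1 : ℝ≥0∞).toReal := by norm_num
  have h1 : Summable fun s => |(f : ∀ _ : S, ℝ) s| := by
    have := (memℓp_gen_iff h0).1 (lp.memℓp f)
    simpa using this
  have h2 : ‖f‖ = ∑' s, |(f : ∀ _ : S, ℝ) s| := by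
    have := lp.norm_eq_tsum_rpow h0 f
    simpa using this
  rw [h2]
  exact h1.hasSum

theorem blk_hasSum {A : ℕ → Type} [∀ n, Fintype (A n)] (f : l1 (Σ n, A n)) :
    HasSum (fun n => ∑ k, |(f : ∀ _ : (Σ n, A n), ℝ) ⟨n, k⟩|) ‖f‖ :=
  (l1_hasSum f).sigma fun n => hasSum_fintype _

theorem exists_of_blk {A : ℕ → Type} [∀ n, Fintype (A n)] (g : (Σ n, A n) → ℝ)
    (hg : Summable fun n => ∑ k, |g ⟨n, k⟩|) :
    ∃ f : l1 (Σ n, A n), ∀ s, (f : ∀ _ : (Σ n, A n), ℝ) s = g s := by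
  have h1 : Summable fun s => |g s| := by
    rw [summable_sigma_of_nonneg (fun s => abs_nonneg _)]
    refine ⟨fun n => (hasSum_fintype _).summable, ?_⟩
    simpa [tsum_fintype] using hg
  refine ⟨⟨g, memℓp_gen (by simpa using h1)⟩, fun s => rfl⟩

theorem norm_le_of_blk {A B : ℕ → Type} [∀ n, Fintype (A n)] [∀ n, Fintype (B n)]
    (f : l1 (Σ n, A n)) (g : l1 (Σ n, B n)) (M : ℝ)
    (h : ∀ n, ∑ k, |(f : ∀ _ : (Σ n, A n), ℝ) ⟨n, k⟩| ≤
      M * ∑ k, |(g : ∀ _ : (Σ n, B n), ℝ) ⟨n, k⟩|) : ‖f‖ ≤ M * ‖g‖ :=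
  hasSum_le h (blk_hasSum f) ((blk_hasSum g).mul_left M)

theorem blk_le {A : ℕ → Type} [∀ n, Fintype (A n)] (f : l1 (Σ n, A n)) (n : ℕ) :
    ∑ k, |(f : ∀ _ : (Σ n, A n), ℝ) ⟨n, k⟩| ≤ ‖f‖ :=
  le_hasSum (blk_hasSum f) n (fun m _ => Finset.sum_nonneg fun k _ => abs_nonneg _)

/-- embedding of a block -/
def emb {A : ℕ → Type} [∀ n, Fintype (A n)] [DecidableEq (Σ n, A n)] (n : ℕ) :
    (A n → ℝ) →ₗ[ℝ] l1 (Σ n, A n) :=
  ∑ k : A n, (LinearMap.proj k : (A n → ℝ) →ₗ[ℝ] ℝ).smulRight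
    (lp.single 1 (⟨n, k⟩ : Σ n, A n) (1 : ℝ) : l1 (Σ n, A n))

theorem emb_apply {A : ℕ → Type} [∀ n, Fintype (A n)] [DecidableEq (Σ n, A n)] (n : ℕ)
    (f : A n → ℝ) : emb n f = ∑ k : A n, f k • (lp.single 1 (⟨n, k⟩ : Σ n, A n) (1 : ℝ) : l1 (Σ n, A n)) := by
  simp [emb, LinearMap.sum_apply]

theorem emb_norm {A : ℕ → Type} [∀ n, Fintype (A n)] [DecidableEq (Σ n, A n)] (n : ℕ)
    (f : A n → ℝ) : ‖emb n f‖ ≤ ∑ k, |f k| := by
  rw [emb_apply]
  refine (norm_sum_le _ _).trans (Finset.sum_le_sum fun k _ => ?_)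
  rw [norm_smul, lp.norm_single (by norm_num)]
  simp

theorem emb_same {A : ℕ → Type} [∀ n, Fintype (A n)] [DecidableEq (Σ n, A n)] (n : ℕ)
    (f : A n → ℝ) (j : A n) : (emb n f : ∀ _ : (Σ n, A n), ℝ) ⟨n, j⟩ = f j := by
  classical
  rw [emb_apply, lp.coeFn_sum, Finset.sum_apply, Finset.sum_eq_single j]
  · rw [lp.coeFn_smul, Pi.smul_apply, lp.single_apply_self]
    simp
  · intro k _ hk
    rw [lp.coeFn_smul, Pi.smul_apply, lp.single_apply_ne]
    · simp
    · intro h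
      apply hk
      have := (Sigma.mk.inj_iff.1 h).2
      exact (eq_of_heq this).symm
  · intro h
    exact absurd (Finset.mem_univ j) h

theorem emb_other {A : ℕ → Type} [∀ n, Fintype (A n)] [DecidableEq (Σ n, A n)] (n m : ℕ)
    (hm : m ≠ n) (f : A n → ℝ) (j : A m) : (emb n f : ∀ _ : (Σ n, A n), ℝ) ⟨m, j⟩ = 0 := by
  classical
  rw [emb_apply, lp.coeFn_sum, Finset.sum_apply]
  refine Finset.sum_eq_zero fun k _ => ?_
  rw [lp.coeFn_smul, Pi.smul_apply, lp.single_apply_ne]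
  · simp
  · intro h
    exact hm (Sigma.mk.inj_iff.1 h).1

/-- closed range -/
theorem closed_range {E F : Type} [NormedAddCommGroup E] [NormedSpace ℝ E] [CompleteSpace E]
    [NormedAddCommGroup F] [NormedSpace ℝ F] (T : E →L[ℝ] F) (M : ℝ) (hM : 0 < M)
    (h : ∀ x, ∃ x', T x' = T x ∧ ‖x'‖ ≤ M * ‖T x‖) :
    IsClosed (LinearMap.range T.toLinearMap : Set F) := by
  let f : NormedAddGroupHom E F := T.toLinearMap.toAddMonoidHom.mkNormedAddGroupHom ‖T‖
    (fun v => T.le_opNorm v)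
  have hf : ∀ x, f x = T x := fun x => rfl
  have h1 : f.SurjectiveOnWith (LinearMap.range T.toLinearMap).toAddSubgroup M := by
    rintro y ⟨x, rfl⟩
    obtain ⟨x', h2, h3⟩ := h x
    exact ⟨x', h2, h3⟩
  have h2 := controlled_closure_of_complete hM one_pos h1
  refine isClosed_of_closure_subset fun y hy => ?_
  obtain ⟨x, hx, -⟩ := h2 y hy
  exact ⟨x, hx⟩

theorem hasRes_empty {X : Type} [NormedAddCommGroup X] [NormedSpace ℝ X] (hX : Subsingleton X) :
    HasRes 0 X := by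
  have : Subsingleton (l1 Empty) := ⟨fun f g => by
    ext x
    exact x.elim⟩
  refine ⟨Empty, ⟨?_⟩⟩
  exact
    { toFun := fun _ => 0
      invFun := fun _ => 0
      left_inv := fun x => Subsingleton.elim _ _
      right_inv := fun x => Subsingleton.elim _ _
      map_add' := fun x y => Subsingleton.elim _ _
      map_smul' := fun c x => Subsingleton.elim _ _
      continuous_toFun := continuous_const
      continuous_invFun := continuous_const }

theorem hasRes_one_of_zero {X : Type} [NormedAddCommGroup X] [NormedSpace ℝ X] (h : HasRes 0 X) :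
    HasRes 1 X := by
  obtain ⟨S, ⟨e⟩⟩ := h
  refine ⟨S, (e.symm : l1 S →L[ℝ] X), e.symm.surjective, hasRes_empty ?_⟩
  refine ⟨fun x y => Subtype.ext ?_⟩
  have hx := LinearMap.mem_ker.1 x.2
  have hy := LinearMap.mem_ker.1 y.2
  have h1 : e.symm (x : l1 S) = e.symm (y : l1 S) := by
    exact hx.trans hy.symm
  exact e.symm.injective h1

theorem t_SEQ : S_BLK → S_HOM → S_SEQ := by
  intro hBLK hHOM A B D _ _ _ a b M0 ha0 hb0 hinj0 hba hex0 hns
  classical
  -- a positive constant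
  obtain ⟨M, hM, ha, hb, hinj, hex⟩ : ∃ M : ℝ, 0 < M ∧
      (∀ n f, ∑ k, |a n f k| ≤ M * ∑ k, |f k|) ∧ (∀ n f, ∑ k, |b n f k| ≤ M * ∑ k, |f k|) ∧
      (∀ n f, ∑ k, |f k| ≤ M * ∑ k, |a n f k|) ∧
      (∀ n g, ∃ f, ∑ k, |g k - a n f k| ≤ M * ∑ k, |b n g k|) := by
    have hle : M0 ≤ |M0| + 1 := (le_abs_self M0).trans (by linarith)
    refine ⟨|M0| + 1, by positivity, fun n f => (ha0 n f).trans ?_, fun n f => (hb0 n f).trans ?_,
      fun n f => (hinj0 n f).trans ?_, fun n g => ?_⟩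
    · exact mul_le_mul_of_nonneg_right hle (Finset.sum_nonneg fun k _ => abs_nonneg _)
    · exact mul_le_mul_of_nonneg_right hle (Finset.sum_nonneg fun k _ => abs_nonneg _)
    · exact mul_le_mul_of_nonneg_right hle (Finset.sum_nonneg fun k _ => abs_nonneg _)
    · obtain ⟨f, hf⟩ := hex0 n g
      exact ⟨f, hf.trans (mul_le_mul_of_nonneg_right hle
        (Finset.sum_nonneg fun k _ => abs_nonneg _))⟩
  obtain ⟨a', ha'⟩ := hBLK A B a M ha
  obtain ⟨b', hb'⟩ := hBLK B D b M hb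
  -- injectivity with a bound
  have hinj' : ∀ f, ‖f‖ ≤ M * ‖a' f‖ := by
    intro f
    refine norm_le_of_blk f (a' f) M fun n => ?_
    have h1 := hinj n (fun k => (f : ∀ _ : (Σ n, A n), ℝ) ⟨n, k⟩)
    simpa only [ha'] using h1
  have hba' : ∀ f, b' (a' f) = 0 := by
    intro f
    ext ⟨n, k⟩
    rw [hb']
    have h1 : (fun k => (a' f : ∀ _ : (Σ n, B n), ℝ) ⟨n, k⟩) =
        a n (fun k => (f : ∀ _ : (Σ n, A n), ℝ) ⟨n, k⟩) := by
      funext k
      exact ha' f n k
    rw [h1, hba]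
    rfl
  -- approximate solution
  have hex' : ∀ g, ∃ f, ‖g - a' f‖ ≤ M * ‖b' g‖ := by
    intro g
    choose F hF using hex
    let g0 : ∀ n, B n → ℝ := fun n k => (g : ∀ _ : (Σ n, B n), ℝ) ⟨n, k⟩
    have hs : Summable fun n => ∑ k, |F n (g0 n) k| := by
      refine Summable.of_nonneg_of_le (fun n => Finset.sum_nonneg fun k _ => abs_nonneg _)
        (fun n => ?_) (((blk_hasSum g).summable.add
          ((blk_hasSum (b' g)).summable.mul_left M)).mul_left M)
      refine (hinj n _).trans (mul_le_mul_of_nonneg_left ?_ hM.le)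
      have h1 : ∑ k, |a n (F n (g0 n)) k| ≤ ∑ k, |g0 n k| + ∑ k, |g0 n k - a n (F n (g0 n)) k| := by
        rw [← Finset.sum_add_distrib]
        refine Finset.sum_le_sum fun k _ => ?_
        have h2 : a n (F n (g0 n)) k = g0 n k - (g0 n k - a n (F n (g0 n)) k) := by ring
        calc |a n (F n (g0 n)) k| = |g0 n k - (g0 n k - a n (F n (g0 n)) k)| := by rw [← h2]
          _ ≤ _ := abs_sub _ _
      refine h1.trans (add_le_add le_rfl ((hF n (g0 n)).trans (le_of_eq ?_)))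
      congr 1
      refine Finset.sum_congr rfl fun k _ => ?_
      rw [hb']
    obtain ⟨f, hf⟩ := exists_of_blk (A := A) (fun s => F s.1 (g0 s.1) s.2) hs
    refine ⟨f, norm_le_of_blk _ _ M fun n => ?_⟩
    have h1 := hF n (g0 n)
    have h2 : ∀ k, ((g - a' f : l1 (Σ n, B n)) : ∀ _ : (Σ n, B n), ℝ) ⟨n, k⟩ =
        g0 n k - a n (F n (g0 n)) k := by
      intro k
      rw [lp.coeFn_sub, Pi.sub_apply, ha']
      have h3 : (fun a => (f : ∀ _ : (Σ n, A n), ℝ) ⟨n, a⟩) = F n (g0 n) := by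
        funext j
        exact hf ⟨n, j⟩
      rw [h3]
    simp only [h2, hb']
    exact h1
  have hker : ∀ g, b' g = 0 → ∃ f, a' f = g := by
    intro g hg
    obtain ⟨f, hf⟩ := hex' g
    rw [hg, norm_zero, mul_zero] at hf
    have h1 : g - a' f = 0 := norm_le_zero_iff.1 hf
    exact ⟨f, (sub_eq_zero.1 h1).symm⟩
  have hclosed : IsClosed (LinearMap.range b'.toLinearMap : Set (l1 (Σ n, D n))) := by
    refine closed_range b' M hM fun g => ?_
    obtain ⟨f, hf⟩ := hex' g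
    refine ⟨g - a' f, ?_, hf⟩
    rw [map_sub, hba', sub_zero]
  have hainj : Function.Injective a' := by
    intro f g hfg
    have h1 := hinj' (f - g)
    rw [map_sub, hfg, sub_self, norm_zero, mul_zero] at h1
    exact sub_eq_zero.1 (norm_le_zero_iff.1 h1)
  have hrk : LinearMap.range a'.toLinearMap = LinearMap.ker b'.toLinearMap := by
    ext g
    constructor
    · rintro ⟨f, rfl⟩
      exact hba' f
    · intro hg
      obtain ⟨f, hf⟩ := hker g hg
      exact ⟨f, hf⟩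
  have hno1 : ¬ ∃ (S' : Type) (q : l1 S' →L[ℝ] (l1 (Σ n, D n) ⧸ LinearMap.range b'.toLinearMap)),
      Function.Surjective q ∧ ∃ T : Type, Nonempty (LinearMap.ker q.toLinearMap ≃L[ℝ] l1 T) := by
    intro hcon
    obtain ⟨h, hh⟩ := hHOM _ _ _ a' b' hainj hrk hclosed hcon
    have hh' : ∀ f, h (a' f) = f := fun f => by
      have := congrArg (fun T => T f) hh
      simpa using this
    have hb1 : ∀ n : ℕ, (n : ℝ) ≤ ‖h‖ := by
      intro n
      let S : (B n → ℝ) →ₗ[ℝ] (A n → ℝ) :=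
        { toFun := fun g k => (h (emb n g) : ∀ _ : (Σ n, A n), ℝ) ⟨n, k⟩
          map_add' := fun x y => by
            funext k
            simp only [map_add, lp.coeFn_add, Pi.add_apply]
          map_smul' := fun c x => by
            funext k
            simp only [map_smul, lp.coeFn_smul, Pi.smul_apply, RingHom.id_apply] }
      refine hns n S (fun f => ?_) ‖h‖ fun g => ?_
      · funext k
        show (h (emb n (a n f)) : ∀ _ : (Σ n, A n), ℝ) ⟨n, k⟩ = f k
        have h1 : (emb n (a n f) : l1 (Σ n, B n)) = a' (emb n f) := by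
          ext ⟨m, j⟩
          rw [ha']
          by_cases hm : m = n
          · subst hm
            have h2 : (fun i => (emb m f : ∀ _ : (Σ n, A n), ℝ) ⟨m, i⟩) = f := by
              funext i
              exact emb_same m f i
            rw [emb_same, h2]
          · rw [emb_other n m hm]
            have h2 : (fun i => (emb n f : ∀ _ : (Σ n, A n), ℝ) ⟨m, i⟩) = 0 := by
              funext i
              rw [emb_other n m hm]
              rfl
            rw [h2, map_zero]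
            rfl
        rw [h1, hh', emb_same]
      · show ∑ k, |(h (emb n g) : ∀ _ : (Σ n, A n), ℝ) ⟨n, k⟩| ≤ ‖h‖ * ∑ k, |g k|
        refine (blk_le _ n).trans ((h.le_opNorm _).trans ?_)
        exact mul_le_mul_of_nonneg_left (emb_norm n g) (norm_nonneg _)
    obtain ⟨n, hn⟩ := exists_nat_gt ‖h‖
    exact absurd (hb1 n) (not_le.2 hn)
  have hcl : IsClosed (LinearMap.range b'.toLinearMap : Set (l1 (Σ n, D n))) := hclosed
  have hno1' : ¬ HasRes 1 (l1 (Σ n, D n) ⧸ LinearMap.range b'.toLinearMap) := fun h => hno1 h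
  refine ⟨l1 (Σ n, D n) ⧸ LinearMap.range b'.toLinearMap, inferInstance, inferInstance,
    inferInstance, ?_, hno1', fun h0 => hno1' (hasRes_one_of_zero h0)⟩
  -- the resolution
  let q : l1 (Σ n, D n) →L[ℝ] (l1 (Σ n, D n) ⧸ LinearMap.range b'.toLinearMap) :=
    (LinearMap.range b'.toLinearMap).mkQL
  have hq : ∀ x, q x = 0 ↔ x ∈ LinearMap.range b'.toLinearMap := by
    intro x
    exact Submodule.Quotient.mk_eq_zero _
  refine ⟨(Σ n, D n), q, Submodule.Quotient.mk_surjective _, ?_⟩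
  let q1 : l1 (Σ n, B n) →L[ℝ] LinearMap.ker q.toLinearMap :=
    b'.codRestrict (LinearMap.ker q.toLinearMap) (fun x => (hq _).2 ⟨x, rfl⟩)
  have hq1 : ∀ x, ((q1 x : LinearMap.ker q.toLinearMap) : l1 (Σ n, D n)) = b' x := fun x => rfl
  refine ⟨(Σ n, B n), q1, ?_, ?_⟩
  · rintro ⟨y, hy⟩
    obtain ⟨x, hx⟩ := (hq y).1 hy
    exact ⟨x, Subtype.ext hx⟩
  · have hmem : ∀ x, a'.toLinearMap x ∈ LinearMap.ker q1.toLinearMap := by
      intro x
      exact Subtype.ext (hba' x)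
    let e0 : l1 (Σ n, A n) →ₗ[ℝ] LinearMap.ker q1.toLinearMap :=
      a'.toLinearMap.codRestrict (LinearMap.ker q1.toLinearMap) hmem
    have he0 : ∀ x, ((e0 x : LinearMap.ker q1.toLinearMap) : l1 (Σ n, B n)) = a' x := fun x => rfl
    have hbij : Function.Bijective e0 := by
      constructor
      · intro x y hxy
        exact hainj (congrArg Subtype.val hxy)
      · rintro ⟨y, hy⟩
        have h1 : b' y = 0 := congrArg Subtype.val (LinearMap.mem_ker.1 hy)
        obtain ⟨f, hf⟩ := hker y h1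
        exact ⟨f, Subtype.ext hf⟩
    let e1 : l1 (Σ n, A n) ≃ₗ[ℝ] LinearMap.ker q1.toLinearMap := LinearEquiv.ofBijective e0 hbij
    let e2 : l1 (Σ n, A n) ≃L[ℝ] LinearMap.ker q1.toLinearMap :=
      LinearEquiv.toContinuousLinearEquivOfBounds e1 ‖a'‖ M (fun x => a'.le_opNorm x) (fun y => by
        obtain ⟨x, rfl⟩ := e1.surjective y
        rw [e1.symm_apply_apply]
        exact hinj' x)
    exact ⟨(Σ n, A n), ⟨e2.symm⟩⟩

end

end Run7.h884.EX
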